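import Pool.Agent.Y60.DC.StmSp
import Pool.Agent.Y362.DCN.Semi

/-!
# SP-FTPG: the fundamental theorem of projective geometry (helper676)
-/

set_option autoImplicit false

namespace Pool.Agent.Y676.DSP

open Submodule

section

variable {F V : Type} [Field F] [AddCommGroup V] [Module F V]

lemma ind2 (x y : V) (h1 : x ∉ span F {y}) (h2 : y ≠ 0) (a b : F)
    (h : a • x + b • y = 0) : a = 0 ∧ b = 0 := by
  have ha : a = 0 := by
    by_contra ha
    apply h1
    rw [mem_span_singleton]
    refine ⟨-(a⁻¹ * b), ?_⟩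
    have e1 : x = a⁻¹ • (a • x) := by rw [smul_smul, inv_mul_cancel₀ ha, one_smul]
    have e2 : a • x = -(b • y) := by linear_combination (norm := module) h
    rw [e1, e2]
    module
  subst ha
  rw [zero_smul, zero_add] at h
  exact ⟨rfl, (smul_eq_zero.1 h).resolve_right h2⟩

lemma ind3 (x y z : V) (h1 : x ∉ span F {y, z}) (h2 : y ∉ span F {z}) (h3 : z ≠ 0) (a b d : F)
    (h : a • x + b • y + d • z = 0) : a = 0 ∧ b = 0 ∧ d = 0 := by
  have ha : a = 0 := by
    by_contra ha
    apply h1
    rw [mem_span_pair]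
    refine ⟨-(a⁻¹ * b), -(a⁻¹ * d), ?_⟩
    have e1 : x = a⁻¹ • (a • x) := by rw [smul_smul, inv_mul_cancel₀ ha, one_smul]
    have e2 : a • x = -(b • y) - d • z := by linear_combination (norm := module) h
    rw [e1, e2]
    module
  subst ha
  rw [zero_smul, zero_add] at h
  exact ⟨rfl, ind2 y z h2 h3 b d h⟩

lemma one_iff (c : V → V) (hl : ∀ u v w, u ≠ 0 → v ≠ 0 → w ≠ 0 →
      (u ∈ Submodule.span F {v, w} ↔ c u ∈ Submodule.span F {c v, c w}))
    (u v : V) (hu : u ≠ 0) (hv : v ≠ 0) : u ∈ span F {v} ↔ c u ∈ span F {c v} := by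
  have h := hl u v v hu hv hv
  rwa [Set.pair_eq_singleton, Set.pair_eq_singleton] at h

end

theorem ftpg_holds : Pool.Agent.Y60.DC.TaskFTPG := by
  intro F V _ _ _ _ hn c hc0 hsurj hl
  have h1l := one_iff c hl
  classical
  let B := Module.finBasis F V
  have hn0 : 0 < Module.finrank F V := by omega
  set e : V := B ⟨0, hn0⟩ with he
  set lam : V →ₗ[F] F := B.coord ⟨0, hn0⟩ with hlam
  have hle : lam e = 1 := by
    rw [hlam, he, Module.Basis.coord_apply, Module.Basis.repr_self, Finsupp.single_eq_same]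
  have he0 : e ≠ 0 := by
    intro h
    rw [h, map_zero] at hle
    exact zero_ne_one hle
  set H : Submodule F V := LinearMap.ker lam with hH
  have hH2 : 2 ≤ Module.finrank F H := by
    have h1 := lam.finrank_range_add_finrank_ker
    have h2 : Module.finrank F (LinearMap.range lam) ≤ 1 := by
      have := Submodule.finrank_le (LinearMap.range lam)
      rwa [Module.finrank_self] at this
    rw [← hH] at h1
    omega
  have hHm : ∀ h : H, lam (h : V) = 0 := fun h => LinearMap.mem_ker.1 h.2
  have heH : ∀ (h : H) (t : F), t • e + (h : V) = 0 → t = 0 ∧ h = 0 := by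
    intro h t h1
    have h2 := congrArg lam h1
    rw [map_add, map_smul, hle, hHm, map_zero, smul_eq_mul, mul_one, add_zero] at h2
    subst h2
    rw [zero_smul, zero_add] at h1
    exact ⟨rfl, Subtype.ext h1⟩
  have hne : ∀ h : H, e + (h : V) ≠ 0 := by
    intro h h1
    have := (heH h 1 (by rwa [one_smul])).1
    exact one_ne_zero this
  have hz : ∀ h : H, h ≠ 0 → (h : V) ≠ 0 := fun h hh h1 => hh (Subtype.ext h1)
  -- independence after `c`
  have I1 : ∀ h : H, h ≠ 0 → c e ∉ span F {c (h : V)} := by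
    intro h hh h1
    rw [← h1l e h he0 (hz h hh), mem_span_singleton] at h1
    obtain ⟨a, ha⟩ := h1
    have h2 := congrArg lam ha
    rw [map_smul, hHm, hle, smul_zero] at h2
    exact zero_ne_one h2
  have I2 : ∀ h h' : H, h ≠ 0 → h' ≠ 0 → c e ∉ span F {c (h : V), c (h' : V)} := by
    intro h h' hh hh' h1
    rw [← hl e h h' he0 (hz h hh) (hz h' hh'), mem_span_pair] at h1
    obtain ⟨a, b, hab⟩ := h1
    have h2 := congrArg lam hab
    rw [map_add, map_smul, map_smul, hHm, hHm, hle, smul_zero, smul_zero, add_zero] at h2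
    exact zero_ne_one h2
  -- the map on the hyperplane
  have key : ∀ h : H, ∃ y : V, (h = 0 → y = 0) ∧ (h ≠ 0 → ∃ b : F, b ≠ 0 ∧ y = b • c (h : V)) ∧
      ∃ a : F, a ≠ 0 ∧ c (e + (h : V)) = a • (c e + y) := by
    intro h
    by_cases hh : h = 0
    · refine ⟨0, fun _ => rfl, fun h1 => absurd hh h1, 1, one_ne_zero, ?_⟩
      rw [hh, ZeroMemClass.coe_zero, add_zero, add_zero, one_smul]
    · have h1 : e + (h : V) ∈ span F {e, (h : V)} :=
        mem_span_pair.2 ⟨1, 1, by rw [one_smul, one_smul]⟩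
      rw [hl _ _ _ (hne h) he0 (hz h hh), mem_span_pair] at h1
      obtain ⟨a, b, hab⟩ := h1
      have ha : a ≠ 0 := by
        rintro rfl
        rw [zero_smul, zero_add] at hab
        have h2 : c (e + (h : V)) ∈ span F {c (h : V)} := mem_span_singleton.2 ⟨b, hab⟩
        rw [← h1l _ _ (hne h) (hz h hh), mem_span_singleton] at h2
        obtain ⟨t, ht⟩ := h2
        have h3 := congrArg lam ht
        rw [map_smul, map_add, hHm, hle, smul_zero, add_zero] at h3
        exact zero_ne_one h3
      have hb : b ≠ 0 := by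
        rintro rfl
        rw [zero_smul, add_zero] at hab
        have h2 : c (e + (h : V)) ∈ span F {c e} := mem_span_singleton.2 ⟨a, hab⟩
        rw [← h1l _ _ (hne h) he0, mem_span_singleton] at h2
        obtain ⟨t, ht⟩ := h2
        have h3 : (1 - t) • e + (h : V) = 0 := by
          rw [sub_smul, one_smul, ht]
          abel
        exact hh (heH h _ h3).2
      refine ⟨(a⁻¹ * b) • c (h : V), fun h1 => absurd h1 hh, fun _ => ⟨a⁻¹ * b,
        mul_ne_zero (inv_ne_zero ha) hb, rfl⟩, a, ha, ?_⟩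
      rw [← hab, smul_add, smul_smul, mul_inv_cancel_left₀ ha]
  choose s hs0 hs1 hs2 using key
  have s0 : s 0 = 0 := hs0 0 rfl
  -- uniqueness
  have U : ∀ (h : H) (b t : F), c e + b • c (h : V) = t • c (e + (h : V)) → h ≠ 0 →
      s h = b • c (h : V) := by
    intro h b t h1 hh
    obtain ⟨b', _, hb'⟩ := hs1 h hh
    obtain ⟨a, _, ha'⟩ := hs2 h
    rw [ha', hb', smul_smul] at h1
    have h2 : (1 - t * a) • c e + (b - t * a * b') • c (h : V) = 0 := by
      linear_combination (norm := module) h1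
    obtain ⟨h3, h4⟩ := ind2 _ _ (I1 h hh) (hc0 _ (hz h hh)) _ _ h2
    have h5 : t * a = 1 := by linear_combination -h3
    rw [h5, one_mul] at h4
    rw [hb', sub_eq_zero.1 h4]
  -- additivity, independent case
  have A1 : ∀ h h' : H, h' ≠ 0 → (h : V) ∉ span F {(h' : V)} → s (h + h') = s h + s h' := by
    intro h h' hh' hi
    have hh : h ≠ 0 := by
      rintro rfl
      exact hi (by rw [ZeroMemClass.coe_zero]; exact zero_mem _)
    have hhh : h + h' ≠ 0 := by
      intro h1
      apply hi
      rw [mem_span_singleton]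
      refine ⟨-1, ?_⟩
      have h2 : h = -h' := eq_neg_of_add_eq_zero_left h1
      rw [h2, neg_one_smul]
      rfl
    have hcI : c (h : V) ∉ span F {c (h' : V)} := by
      rw [← h1l _ _ (hz h hh) (hz h' hh')]
      exact hi
    have hind := ind3 (c e) (c (h : V)) (c (h' : V)) (I2 h h' hh hh') hcI (hc0 _ (hz h' hh'))
    obtain ⟨b, hb, hsb⟩ := hs1 h hh
    obtain ⟨b', hb', hsb'⟩ := hs1 h' hh'
    obtain ⟨b2, hb2, hsb2⟩ := hs1 (h + h') hhh
    obtain ⟨a, ha, hsa⟩ := hs2 h
    obtain ⟨a', ha', hsa'⟩ := hs2 h'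
    obtain ⟨a2, ha2, hsa2⟩ := hs2 (h + h')
    have h1 : ((h + h' : H) : V) ∈ span F {(h : V), (h' : V)} :=
      mem_span_pair.2 ⟨1, 1, by rw [one_smul, one_smul]; rfl⟩
    rw [hl _ _ _ (hz _ hhh) (hz h hh) (hz h' hh'), mem_span_pair] at h1
    obtain ⟨u, v, huv⟩ := h1
    have h2 : e + ((h + h' : H) : V) ∈ span F {e + (h : V), (h' : V)} :=
      mem_span_pair.2 ⟨1, 1, by rw [one_smul, one_smul, coe_add]; abel⟩
    rw [hl _ _ _ (hne _) (hne h) (hz h' hh'), mem_span_pair] at h2
    obtain ⟨p, q, hpq⟩ := h2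
    have h3 : e + ((h + h' : H) : V) ∈ span F {e + (h' : V), (h : V)} :=
      mem_span_pair.2 ⟨1, 1, by rw [one_smul, one_smul, coe_add]; abel⟩
    rw [hl _ _ _ (hne _) (hne h') (hz h hh), mem_span_pair] at h3
    obtain ⟨p', q', hpq'⟩ := h3
    rw [hsa2, hsa, hsb, hsb2, ← huv] at hpq
    rw [hsa2, hsa', hsb', hsb2, ← huv] at hpq'
    have k1 : (p * a - a2) • c e + (p * a * b - a2 * b2 * u) • c (h : V) +
        (q - a2 * b2 * v) • c (h' : V) = 0 := by
      linear_combination (norm := module) hpq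
    have k2 : (p' * a' - a2) • c e + (q' - a2 * b2 * u) • c (h : V) +
        (p' * a' * b' - a2 * b2 * v) • c (h' : V) = 0 := by
      linear_combination (norm := module) hpq'
    obtain ⟨k3, k4, _⟩ := hind _ _ _ k1
    obtain ⟨k5, _, k6⟩ := hind _ _ _ k2
    have k7 : b2 * u = b := by
      apply mul_left_cancel₀ ha2
      linear_combination -k4 + b * k3
    have k8 : b2 * v = b' := by
      apply mul_left_cancel₀ ha2
      linear_combination -k6 + b' * k5
    rw [hsb2, ← huv, hsb, hsb', smul_add, smul_smul, smul_smul, k7, k8]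
  have out : ∀ h : H, ∃ k : H, (k : V) ∉ span F {(h : V)} := by
    intro h
    by_contra hcon
    push Not at hcon
    have h1 : H ≤ span F {(h : V)} := fun x hx => hcon ⟨x, hx⟩
    have h2 := Submodule.finrank_mono h1
    have h3 : Module.finrank F (span F {(h : V)}) ≤ 1 := by
      by_cases hh : (h : V) = 0
      · rw [hh, span_zero_singleton, finrank_bot]
        omega
      · rw [finrank_span_singleton hh]
    omega
  -- additivity
  have A2 : ∀ h h' : H, s (h + h') = s h + s h' := by
    intro h h'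
    by_cases hh : h = 0
    · rw [hh, s0, zero_add, zero_add]
    by_cases hh' : h' = 0
    · rw [hh', s0, add_zero, add_zero]
    by_cases hi : (h : V) ∈ span F {(h' : V)}
    · obtain ⟨k, hk⟩ := out h'
      obtain ⟨a, ha⟩ := mem_span_singleton.1 hi
      have ha0 : a ≠ 0 := by
        rintro rfl
        rw [zero_smul] at ha
        exact hz h hh ha.symm
      have hk0 : k ≠ 0 := by
        rintro rfl
        exact hk (by rw [ZeroMemClass.coe_zero]; exact zero_mem _)
      have e1 : s (h' + k) = s h' + s k := by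
        rw [add_comm h' k, A1 k h' hh' hk, add_comm]
      have hk2 : ((h' + k : H) : V) ∉ span F {(h : V)} := by
        intro h1
        obtain ⟨t, ht⟩ := mem_span_singleton.1 h1
        apply hk
        rw [mem_span_singleton]
        refine ⟨t * a - 1, ?_⟩
        rw [coe_add] at ht
        rw [sub_smul, mul_smul, ha, ht, one_smul, add_sub_cancel_left]
      have e2 : s (h + (h' + k)) = s h + (s h' + s k) := by
        rw [add_comm h (h' + k), A1 (h' + k) h hh hk2, e1, add_comm]
      have e3 : s ((h + h') + k) = s (h + h') + s k := by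
        by_cases h0 : h + h' = 0
        · rw [h0, s0, zero_add, zero_add]
        · rw [add_comm (h + h') k, A1 k (h + h') h0 ?_, add_comm]
          intro h1
          obtain ⟨t, ht⟩ := mem_span_singleton.1 h1
          apply hk
          rw [mem_span_singleton]
          refine ⟨t * (a + 1), ?_⟩
          rw [← ht, coe_add, ← ha]
          module
      rw [← add_assoc, e3, ← add_assoc] at e2
      exact add_right_cancel e2
    · exact A1 h h' hh' hi
  have snz : ∀ h : H, h ≠ 0 → s h ≠ 0 := by
    intro h hh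
    obtain ⟨b, hb, hsb⟩ := hs1 h hh
    rw [hsb]
    exact smul_ne_zero hb (hc0 _ (hz h hh))
  let sH : H →+ V := { toFun := s, map_zero' := s0, map_add' := A2 }
  have hsH : ∀ h, sH h = s h := fun _ => rfl
  have hinj : Function.Injective sH := by
    rw [injective_iff_map_eq_zero]
    intro h h1
    by_contra hh
    exact snz h hh h1
  -- scalar multiples of values are values
  have S1 : ∀ (h : H) (a : F), ∃ r : F, a • s h = s (r • h) := by
    intro h a
    by_cases ha : a = 0
    · exact ⟨0, by rw [ha, zero_smul, zero_smul, s0]⟩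
    by_cases hh : h = 0
    · exact ⟨0, by rw [hh, smul_zero, s0, smul_zero]⟩
    obtain ⟨b, hb, hsb⟩ := hs1 h hh
    have hy : c e + a • s h ≠ 0 := by
      intro h1
      rw [hsb, smul_smul] at h1
      have := (ind2 (c e) _ (I1 h hh) (hc0 _ (hz h hh)) 1 (a * b) (by rwa [one_smul])).1
      exact one_ne_zero this
    obtain ⟨x, hx, t, hxt⟩ := hsurj _ hy
    have ht : t ≠ 0 := by
      rintro rfl
      rw [zero_smul] at hxt
      exact hy hxt
    have h1 : c x ∈ span F {c e, c (h : V)} := by
      rw [mem_span_pair]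
      refine ⟨t⁻¹, t⁻¹ * (a * b), ?_⟩
      rw [mul_smul, ← smul_add, mul_smul a b, ← hsb, hxt, smul_smul, inv_mul_cancel₀ ht, one_smul]
    rw [← hl _ _ _ hx he0 (hz h hh), mem_span_pair] at h1
    obtain ⟨u, v, huv⟩ := h1
    have hu : u ≠ 0 := by
      rintro rfl
      rw [zero_smul, zero_add] at huv
      have h2 : x ∈ span F {(h : V)} := mem_span_singleton.2 ⟨v, huv⟩
      rw [h1l _ _ hx (hz h hh), mem_span_singleton] at h2
      obtain ⟨w, hw⟩ := h2
      apply I1 h hh
      rw [mem_span_singleton]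
      refine ⟨t * w - a * b, ?_⟩
      rw [sub_smul, mul_smul, hw, ← hxt, mul_smul a b, ← hsb, add_sub_cancel_right]
    refine ⟨u⁻¹ * v, ?_⟩
    -- `x` is proportional to `e + (v / u) h`
    have h3 : x ∈ span F {e + (((u⁻¹ * v) • h : H) : V)} := by
      rw [mem_span_singleton]
      refine ⟨u, ?_⟩
      rw [coe_smul, smul_add, smul_smul, mul_inv_cancel_left₀ hu, huv]
    rw [h1l _ _ hx (hne _), mem_span_singleton] at h3
    obtain ⟨w, hw⟩ := h3
    by_cases hv : (u⁻¹ * v) • h = 0
    · exfalso
      rw [hv, ZeroMemClass.coe_zero, add_zero] at hw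
      rw [← hw, hsb, smul_smul, smul_smul] at hxt
      have h4 : (1 - t * w) • c e + (a * b) • c (h : V) = 0 := by
        linear_combination (norm := module) hxt
      have h5 := (ind2 _ _ (I1 h hh) (hc0 _ (hz h hh)) _ _ h4).2
      exact mul_ne_zero ha hb h5
    · -- `c h` is proportional to `c ((v / u) h)`
      have h4 : (h : V) ∈ span F {(((u⁻¹ * v) • h : H) : V)} := by
        have hr : u⁻¹ * v ≠ 0 := by
          intro h5
          rw [h5, zero_smul] at hv
          exact hv rfl
        rw [mem_span_singleton]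
        refine ⟨(u⁻¹ * v)⁻¹, ?_⟩
        rw [coe_smul, smul_smul, inv_mul_cancel₀ hr, one_smul]
      rw [h1l _ _ (hz h hh) (hz _ hv), mem_span_singleton] at h4
      obtain ⟨w', hw'⟩ := h4
      have h5 : c e + (a * b * w') • c (((u⁻¹ * v) • h : H) : V) =
          (t * w) • c (e + (((u⁻¹ * v) • h : H) : V)) := by
        rw [mul_smul t w, hw, ← hxt, hsb, smul_smul, mul_smul (a * b) w', hw']
      rw [U _ _ _ h5 hv, mul_smul (a * b) w', hw', hsb, smul_smul]
  -- the submodule of all values
  let W : Submodule F V :=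
    { carrier := Set.range s
      add_mem' := by
        rintro _ _ ⟨x, rfl⟩ ⟨y, rfl⟩
        exact ⟨x + y, A2 x y⟩
      zero_mem' := ⟨0, s0⟩
      smul_mem' := by
        rintro a _ ⟨x, rfl⟩
        obtain ⟨r, hr⟩ := S1 x a
        exact ⟨r • x, hr.symm⟩ }
  let sW : H →+ W := { toFun := fun h => ⟨s h, ⟨h, rfl⟩⟩
                       map_zero' := Subtype.ext s0
                       map_add' := fun x y => Subtype.ext (A2 x y) }
  have hWb : Function.Bijective sW := by
    constructor
    · intro x y hxy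
      exact hinj (congrArg Subtype.val hxy)
    · rintro ⟨_, ⟨x, rfl⟩⟩
      exact ⟨x, rfl⟩
  let E : H ≃+ W := AddEquiv.ofBijective sW hWb
  have hE : ∀ h : H, ((E h : W) : V) = s h := fun _ => rfl
  -- proportionality
  have S2 : ∀ (x : F) (h : H), ∃ y : F, s (x • h) = y • s h := by
    intro x h
    by_cases hx : x • h = 0
    · exact ⟨0, by rw [hx, s0, zero_smul]⟩
    · have hh : h ≠ 0 := by
        rintro rfl
        exact hx (smul_zero x)
      obtain ⟨b, hb, hsb⟩ := hs1 h hh
      obtain ⟨b', hb', hsb'⟩ := hs1 (x • h) hx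
      have h1 : ((x • h : H) : V) ∈ span F {(h : V)} := mem_span_singleton.2 ⟨x, rfl⟩
      rw [h1l _ _ (hz _ hx) (hz h hh), mem_span_singleton] at h1
      obtain ⟨w, hw⟩ := h1
      refine ⟨b' * w * b⁻¹, ?_⟩
      rw [hsb', hsb, ← hw, smul_smul, smul_smul, mul_assoc (b' * w), inv_mul_cancel₀ hb, mul_one]
  obtain ⟨φ, hφ⟩ := Pool.Agent.Y362.DCN.semi_holds F H W E hH2
    (fun x h => by
      obtain ⟨y, hy⟩ := S2 x h
      exact ⟨y, Subtype.ext hy⟩)
    (fun x h => by
      obtain ⟨r, hr⟩ := S1 h x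
      refine ⟨r, ?_⟩
      rw [AddEquiv.symm_apply_eq]
      exact Subtype.ext hr)
  have hφs : ∀ (x : F) (h : H), s (x • h) = φ x • s h := fun x h => congrArg Subtype.val (hφ x h)
  -- the projection to `H`
  have hpr : ∀ x : V, x - lam x • e ∈ H := by
    intro x
    rw [hH, LinearMap.mem_ker, map_sub, map_smul, hle, smul_eq_mul, mul_one, sub_self]
  let pr : V →ₗ[F] H := LinearMap.codRestrict H (LinearMap.id - lam.smulRight e) (fun x => hpr x)
  have hprv : ∀ x : V, ((pr x : H) : V) = x - lam x • e := fun _ => rfl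
  let g0 : V →+ V :=
    { toFun := fun x => φ (lam x) • c e + s (pr x)
      map_zero' := by
        show φ (lam 0) • c e + s (pr 0) = 0
        rw [map_zero, map_zero, map_zero, zero_smul, s0, zero_add]
      map_add' := fun x y => by
        show φ (lam (x + y)) • c e + s (pr (x + y)) = (φ (lam x) • c e + s (pr x)) +
          (φ (lam y) • c e + s (pr y))
        rw [map_add, map_add, map_add, A2]
        module }
  have hg0 : ∀ x, g0 x = φ (lam x) • c e + s (pr x) := fun _ => rfl
  have hsemi : ∀ (a : F) (x : V), g0 (a • x) = φ a • g0 x := by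
    intro a x
    rw [hg0, hg0, lam.map_smul, pr.map_smul, hφs, smul_eq_mul, map_mul]
    module
  have hg0inj : Function.Injective g0 := by
    rw [injective_iff_map_eq_zero]
    intro x hx
    rw [hg0] at hx
    have hdec : x = lam x • e + ((pr x : H) : V) := by rw [hprv]; abel
    by_cases hh : pr x = 0
    · rw [hh, s0, add_zero] at hx
      have h1 : φ (lam x) = 0 := (smul_eq_zero.1 hx).resolve_right (hc0 _ he0)
      have h2 : lam x = 0 := (map_eq_zero φ).1 h1
      rw [hdec, h2, hh, zero_smul, ZeroMemClass.coe_zero, add_zero]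
    · exfalso
      obtain ⟨b, hb, hsb⟩ := hs1 _ hh
      rw [hsb] at hx
      exact hb (ind2 _ _ (I1 _ hh) (hc0 _ (hz _ hh)) _ _ hx).2
  have hprop : ∀ x, x ≠ 0 → ∃ a : F, a ≠ 0 ∧ g0 x = a • c x := by
    intro x hx
    have hgx : g0 x ≠ 0 := fun h => hx (hg0inj (by rw [h, map_zero]))
    suffices h : ∃ a : F, g0 x = a • c x by
      obtain ⟨a, ha⟩ := h
      refine ⟨a, ?_, ha⟩
      rintro rfl
      rw [zero_smul] at ha
      exact hgx ha
    have hdec : x = lam x • e + ((pr x : H) : V) := by rw [hprv]; abel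
    by_cases ht : lam x = 0
    · have hh : pr x ≠ 0 := by
        intro h
        rw [ht, h, zero_smul, ZeroMemClass.coe_zero, add_zero] at hdec
        exact hx hdec
      obtain ⟨b, hb, hsb⟩ := hs1 _ hh
      refine ⟨b, ?_⟩
      have h1 : ((pr x : H) : V) = x := by
        rw [ht, zero_smul, zero_add] at hdec
        exact hdec.symm
      rw [hg0, ht, map_zero, zero_smul, zero_add, hsb, h1]
    · have h1 : x ∈ span F {e + (((lam x)⁻¹ • pr x : H) : V)} := by
        rw [mem_span_singleton]
        refine ⟨lam x, ?_⟩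
        rw [coe_smul, smul_add, smul_smul, mul_inv_cancel₀ ht, one_smul, ← hdec]
      have h1' : e + (((lam x)⁻¹ • pr x : H) : V) ∈ span F {x} := by
        rw [mem_span_singleton]
        refine ⟨(lam x)⁻¹, ?_⟩
        calc (lam x)⁻¹ • x = (lam x)⁻¹ • (lam x • e + ((pr x : H) : V)) := by rw [← hdec]
          _ = _ := by rw [smul_add, smul_smul, inv_mul_cancel₀ ht, one_smul, coe_smul]
      rw [h1l _ _ (hne _) hx, mem_span_singleton] at h1'
      obtain ⟨w, hw⟩ := h1'
      obtain ⟨a, ha, hsa⟩ := hs2 ((lam x)⁻¹ • pr x)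
      refine ⟨φ (lam x) * (a⁻¹ * w), ?_⟩
      have h2 : c e + s ((lam x)⁻¹ • pr x) = (a⁻¹ * w) • c x := by
        rw [mul_smul, hw, hsa, smul_smul, inv_mul_cancel₀ ha, one_smul]
      rw [mul_smul, ← h2, hφs, hg0, smul_add, smul_smul, ← map_mul, mul_inv_cancel₀ ht, map_one,
        one_smul]
  have hg0surj : Function.Surjective g0 := by
    intro y
    by_cases hy : y = 0
    · exact ⟨0, by rw [map_zero, hy]⟩
    · obtain ⟨x, hx, b, hb⟩ := hsurj y hy
      obtain ⟨a, ha, hga⟩ := hprop x hx
      refine ⟨φ.symm (b * a⁻¹) • x, ?_⟩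
      rw [hsemi, RingEquiv.apply_symm_apply, hga, smul_smul, mul_assoc, inv_mul_cancel₀ ha,
        mul_one, hb]
  refine ⟨φ, AddEquiv.ofBijective g0 ⟨hg0inj, hg0surj⟩, hsemi, fun v hv => ?_⟩
  obtain ⟨a, _, ha⟩ := hprop v hv
  exact ⟨a, ha⟩

end Pool.Agent.Y676.DSP
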