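import Pool.Agent.Y60.DC.StmSp

/-!
# SP-SIMPLE: the symplectic groups are simple modulo the scalars (helper676)
-/

set_option autoImplicit false

namespace Pool.Agent.Y676.DSP

open Submodule
open Pool.Agent.Y60.DC (SpV IsSymp IsTv TaskSGEN TaskSSIMPLE)

section

variable {F V : Type} [Field F] [AddCommGroup V] [Module F V] [FiniteDimensional F V]
  {B : V →ₗ[F] V →ₗ[F] F} (hB : IsSymp B)

include hB in
omit [FiniteDimensional F V] in
lemma skew (x y : V) : B x y = -B y x := by
  have h := hB.alt (x + y)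
  rw [map_add, map_add, LinearMap.add_apply, LinearMap.add_apply, hB.alt, hB.alt] at h
  linear_combination h

/-- an isometry from a linear map -/
noncomputable def mkIso (f : V →ₗ[F] V) (h : ∀ x y, B (f x) (f y) = B x y) : SpV B :=
  ⟨LinearEquiv.ofInjectiveEndo f (by
    rw [injective_iff_map_eq_zero]
    intro x hx
    apply hB.nondeg
    intro y
    rw [← h x y, hx, map_zero, LinearMap.zero_apply]), h⟩

lemma mkIso_apply (f : V →ₗ[F] V) (h : ∀ x y, B (f x) (f y) = B x y) (x : V) :
    (mkIso hB f h).1 x = f x := rfl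

/-- `z ↦ B(x,z) x` -/
def sq (B : V →ₗ[F] V →ₗ[F] F) (x : V) : V →ₗ[F] V := (B x).smulRight x

omit [FiniteDimensional F V] in
lemma sq_apply (x z : V) : sq B x z = B x z • x := rfl

/-- the transvection -/
noncomputable def tv (v : V) (a : F) : SpV B :=
  mkIso hB (LinearMap.id + a • sq B v) (by
    intro x y
    rw [LinearMap.add_apply, LinearMap.add_apply, LinearMap.smul_apply, LinearMap.smul_apply,
      LinearMap.id_apply, LinearMap.id_apply, sq_apply, sq_apply]
    simp only [map_add, map_smul, LinearMap.add_apply, LinearMap.smul_apply, smul_eq_mul, hB.alt]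
    rw [skew hB x v]
    ring)

lemma tv_apply (v : V) (a : F) (z : V) : (tv hB v a).1 z = z + a • (B v z • v) := rfl

/-- Siegel transformations -/
noncomputable def sg (r y : V) (h : B r y = 0) : SpV B :=
  mkIso hB (LinearMap.id + ((B r).smulRight y + (B y).smulRight r)) (by
    intro x z
    have h' : B y r = 0 := by rw [skew hB, h, neg_zero]
    simp only [LinearMap.add_apply, LinearMap.id_apply, LinearMap.smulRight_apply]
    simp only [map_add, map_smul, LinearMap.add_apply, LinearMap.smul_apply, smul_eq_mul, hB.alt,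
      h, h']
    rw [skew hB x y, skew hB x r]
    ring)

lemma sg_apply (r y : V) (h : B r y = 0) (z : V) :
    (sg hB r y h).1 z = z + (B r z • y + B y z • r) := rfl

variable (N : Subgroup (SpV B))

/-- `1 + f` is in `N` -/
def K (f : V →ₗ[F] V) : Prop := ∃ n ∈ N, ∀ z, n.1 z = z + f z

/-- the image of `f` is in `U` and `f` kills `U` -/
def FU (U : Submodule F V) (f : V →ₗ[F] V) : Prop := (∀ z, f z ∈ U) ∧ ∀ z ∈ U, f z = 0

omit [FiniteDimensional F V] in
lemma FU.add {U : Submodule F V} {f g : V →ₗ[F] V} (hf : FU U f) (hg : FU U g) :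
    FU U (f + g) :=
  ⟨fun z => U.add_mem (hf.1 z) (hg.1 z), fun z hz => by
    rw [LinearMap.add_apply, hf.2 z hz, hg.2 z hz, add_zero]⟩

omit [FiniteDimensional F V] in
lemma FU.smul {U : Submodule F V} {f : V →ₗ[F] V} (hf : FU U f) (a : F) : FU U (a • f) :=
  ⟨fun z => U.smul_mem a (hf.1 z), fun z hz => by
    rw [LinearMap.smul_apply, hf.2 z hz, smul_zero]⟩

omit [FiniteDimensional F V] in
lemma FU.sq {U : Submodule F V} (hU : ∀ x ∈ U, ∀ y ∈ U, B x y = 0) {x : V} (hx : x ∈ U) :
    FU U (sq B x) :=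
  ⟨fun z => U.smul_mem _ hx, fun z hz => by rw [sq_apply, hU x hx z hz, zero_smul]⟩

omit [FiniteDimensional F V] in
lemma K.add {U : Submodule F V} {f g : V →ₗ[F] V} (hf : FU U f) (hg : FU U g) (h1 : K N f)
    (h2 : K N g) : K N (f + g) := by
  obtain ⟨n, hn, h3⟩ := h1
  obtain ⟨m, hm, h4⟩ := h2
  refine ⟨n * m, N.mul_mem hn hm, fun z => ?_⟩
  have e : (n * m).1 z = n.1 (m.1 z) := rfl
  rw [e, h4, h3, map_add, hf.2 _ (hg.1 z), add_zero, LinearMap.add_apply]
  abel

/-- `a (x² - v²)` is in `K` for all `a` -/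
def D (v x : V) : Prop := ∀ a : F, K N (a • (sq B x - sq B v))

omit [FiniteDimensional F V] in
lemma inv_apply' (g : SpV B) (z : V) : g.1 (g⁻¹.1 z) = z := g.1.apply_symm_apply z

omit [FiniteDimensional F V] in
lemma iso_inv (g : SpV B) (x z : V) : B x (g⁻¹.1 z) = B (g.1 x) z := by
  rw [← g.2 x (g⁻¹.1 z), inv_apply']

omit [FiniteDimensional F V] in
lemma D.conj (hN : N.Normal) {v x : V} (h : D N v x) (g : SpV B) : D N (g.1 v) (g.1 x) := by
  intro a
  obtain ⟨n, hn, h1⟩ := h a
  refine ⟨g * n * g⁻¹, hN.conj_mem n hn g, fun z => ?_⟩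
  have e : (g * n * g⁻¹).1 z = g.1 (n.1 (g⁻¹.1 z)) := rfl
  rw [e, h1, map_add, inv_apply']
  simp only [LinearMap.smul_apply, LinearMap.sub_apply, sq_apply, map_smul, map_sub, iso_inv]

include hB in
lemma D.shift (hN : N.Normal) {v x : V} (h : D N v x) (r y : V) (hrv : B r v = 0)
    (hrx : B r x = 0) (hyr : B y r = 0) (hyv : B y v = 0) (hyx : B y x = 1) :
    D N v (x + r) := by
  have hry : B r y = 0 := by rw [skew hB, hyr, neg_zero]
  have h1 := h.conj N hN (sg hB r y hry)
  rw [sg_apply, sg_apply, hrv, hrx, hyv, hyx] at h1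
  simp only [zero_smul, zero_add, add_zero, one_smul] at h1
  exact h1

include hB in
lemma ex_y (p : Submodule F V) (x : V) (hx : x ∉ p) : ∃ y, B y x = 1 ∧ ∀ s ∈ p, B y s = 0 := by
  obtain ⟨f, hf, hpf⟩ := Submodule.exists_le_ker_of_notMem hx
  have hinj : Function.Injective B := by
    rw [injective_iff_map_eq_zero]
    intro z hz
    exact hB.nondeg z fun y => by rw [hz, LinearMap.zero_apply]
  have hsur : Function.Surjective B :=
    (LinearMap.injective_iff_surjective_of_finrank_eq_finrank
      (Subspace.dual_finrank_eq (K := F) (V := V)).symm).1 hinj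
  obtain ⟨y, hy⟩ := hsur ((f x)⁻¹ • f)
  refine ⟨y, ?_, fun s hs => ?_⟩
  · rw [hy, LinearMap.smul_apply, smul_eq_mul, inv_mul_cancel₀ hf]
  · rw [hy, LinearMap.smul_apply, LinearMap.mem_ker.1 (hpf hs), smul_zero]

lemma finrank_perp (v w : V) : Module.finrank F V ≤
    Module.finrank F (LinearMap.ker ((B v).prod (B w))) + 2 := by
  have h1 := ((B v).prod (B w)).finrank_range_add_finrank_ker
  have h2 := Submodule.finrank_le (LinearMap.range ((B v).prod (B w)))
  rw [Module.finrank_prod, Module.finrank_self] at h2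
  omega

omit [FiniteDimensional F V] in
lemma mem_perp (v w z : V) (hz : z ∈ LinearMap.ker ((B v).prod (B w))) : B v z = 0 ∧ B w z = 0 := by
  have h := LinearMap.mem_ker.1 hz
  exact ⟨congrArg Prod.fst h, congrArg Prod.snd h⟩

lemma ex_r (v w : V) (hn : 4 ≤ Module.finrank F V) : ∃ r : V, r ≠ 0 ∧ B v r = 0 ∧ B w r = 0 := by
  have h1 := finrank_perp (B := B) v w
  have h2 : LinearMap.ker ((B v).prod (B w)) ≠ ⊥ := by
    intro h
    rw [h, finrank_bot] at h1
    omega
  obtain ⟨r, hr, hr0⟩ := Submodule.exists_mem_ne_zero_of_ne_bot h2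
  exact ⟨r, hr0, mem_perp v w r hr⟩

lemma ex_u (v w : V) (hn : 6 ≤ Module.finrank F V) :
    ∃ u : V, u ∉ span F {v, w} ∧ B v u = 0 ∧ B w u = 0 := by
  classical
  have h1 := finrank_perp (B := B) v w
  by_contra hcon
  push Not at hcon
  have h2 : LinearMap.ker ((B v).prod (B w)) ≤ span F {v, w} := by
    intro z hz
    by_contra hz'
    exact hcon z hz' (mem_perp v w z hz).1 (mem_perp v w z hz).2
  have h3 := Submodule.finrank_mono h2
  have h4 : Module.finrank F (span F {v, w}) ≤ 2 := by
    have h5 := finrank_span_finset_le_card (R := F) ({v, w} : Finset V)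
    rw [Finset.coe_insert, Finset.coe_singleton] at h5
    exact h5.trans Finset.card_le_two
  omega

include hB in
omit [FiniteDimensional F V] in
/-- isotropic span of three orthogonal vectors -/
lemma iso3 (u v w : V) (h1 : B u v = 0) (h2 : B u w = 0) (h3 : B v w = 0) :
    ∀ x ∈ span F {u, v, w}, ∀ y ∈ span F {u, v, w}, B x y = 0 := by
  intro x hx y hy
  obtain ⟨a, b, c, rfl⟩ := mem_span_triple.1 hx
  obtain ⟨a', b', c', rfl⟩ := mem_span_triple.1 hy
  have h1' : B v u = 0 := by rw [skew hB, h1, neg_zero]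
  have h2' : B w u = 0 := by rw [skew hB, h2, neg_zero]
  have h3' : B w v = 0 := by rw [skew hB, h3, neg_zero]
  simp only [map_add, map_smul, LinearMap.add_apply, LinearMap.smul_apply, smul_eq_mul, hB.alt,
    h1, h2, h3, h1', h2', h3', mul_zero, add_zero]

include hB in
/-- from a pair of orthogonal vectors to the transvections -/
lemma main_rel (hN : N.Normal) (hdim : ((2 : F) ≠ 0 ∧ 4 ≤ Module.finrank F V ∨
    6 ≤ Module.finrank F V)) (v w : V) (hvw : B v w = 0) (hi : w ∉ span F {v})
    (hD : D N v w) : ∀ b : F, K N (b • sq B v) := by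
  have hwv : B w v = 0 := by rw [skew hB, hvw, neg_zero]
  intro b
  rcases hdim with ⟨h2, _⟩ | h6
  · obtain ⟨y, hy1, hy2⟩ := ex_y hB _ w hi
    have hyv : B y v = 0 := hy2 v (mem_span_singleton_self v)
    have D1 : D N v (w + v) := hD.shift hB N hN v y (hB.alt v) hvw hyv hyv hy1
    have D2 : D N v (w + -v) := hD.shift hB N hN (-v) y
      (by rw [map_neg, LinearMap.neg_apply, hB.alt, neg_zero])
      (by rw [map_neg, LinearMap.neg_apply, hvw, neg_zero]) (by rw [map_neg, hyv, neg_zero])
      hyv hy1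
    have hU := iso3 hB 0 v w (by rw [map_zero, LinearMap.zero_apply])
      (by rw [map_zero, LinearMap.zero_apply]) hvw
    have mv : v ∈ span F {0, v, w} := subset_span (by simp)
    have mw : w ∈ span F {0, v, w} := subset_span (by simp)
    have m1 := (span F {0, v, w}).add_mem mw mv
    have m2 := (span F {0, v, w}).add_mem mw ((span F {0, v, w}).neg_mem mv)
    have fs : ∀ (x : V) (a : F), x ∈ span F {0, v, w} →
        FU (span F {0, v, w}) (a • (sq B x - sq B v)) := fun x a hx => by
      have h3 := ((FU.sq hU hx).add ((FU.sq hU mv).smul (-1))).smul a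
      rwa [neg_one_smul, ← sub_eq_add_neg] at h3
    have r1 := K.add N (fs _ (b / 2) m1) (fs _ (b / 2) m2) (D1 _) (D2 _)
    have r2 := K.add N ((fs _ (b / 2) m1).add (fs _ (b / 2) m2)) (fs _ (-b) mw) r1 (hD _)
    have e : (b / 2) • (sq B (w + v) - sq B v) + (b / 2) • (sq B (w + -v) - sq B v) +
        (-b) • (sq B w - sq B v) = b • sq B v := by
      ext z
      simp only [LinearMap.add_apply, LinearMap.smul_apply, LinearMap.sub_apply, sq_apply,
        map_add, map_neg, LinearMap.neg_apply]
      have e1 : b = b / 2 * 2 := by rw [div_mul_cancel₀ _ h2]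
      generalize hc : b / 2 = c at e1 ⊢
      subst e1
      module
    rwa [e] at r2
  · obtain ⟨u, hu, hvu, hwu⟩ := ex_u (B := B) v w h6
    have huv : B u v = 0 := by rw [skew hB, hvu, neg_zero]
    have huw : B u w = 0 := by rw [skew hB, hwu, neg_zero]
    have hw' : w ∉ span F {v, u} := by
      intro h
      obtain ⟨a, c, h3⟩ := mem_span_pair.1 h
      by_cases hc : c = 0
      · apply hi
        rw [mem_span_singleton]
        refine ⟨a, ?_⟩
        rw [hc, zero_smul, add_zero] at h3
        exact h3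
      · apply hu
        rw [mem_span_pair]
        refine ⟨-(c⁻¹ * a), c⁻¹, ?_⟩
        have h4 : u = c⁻¹ • (c • u) := by rw [smul_smul, inv_mul_cancel₀ hc, one_smul]
        rw [h4, ← h3]
        module
    obtain ⟨y1, hy1, hy1'⟩ := ex_y hB _ w hw'
    obtain ⟨y2, hy2, hy2'⟩ := ex_y hB _ u hu
    have a1 : B y1 v = 0 := hy1' v (subset_span (by simp))
    have a2 : B y1 u = 0 := hy1' u (subset_span (by simp))
    have a3 : B y2 v = 0 := hy2' v (subset_span (by simp))
    have a4 : B y2 w = 0 := hy2' w (subset_span (by simp))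
    have Dwv : D N v (w + v) := hD.shift hB N hN v y1 (hB.alt v) hvw a1 a1 hy1
    have Dwu : D N v (w + u) := hD.shift hB N hN u y1 huv huw a2 a1 hy1
    have Dwuv : D N v (w + u + v) := Dwu.shift hB N hN v y1 (hB.alt v)
      (by rw [map_add, hvw, hvu, add_zero]) a1 a1 (by rw [map_add, hy1, a2, add_zero])
    have Du : D N v (w + u + -w) := Dwu.shift hB N hN (-w) y2
      (by rw [map_neg, LinearMap.neg_apply, hwv, neg_zero])
      (by rw [map_neg, LinearMap.neg_apply, map_add, hB.alt, hwu, add_zero, neg_zero])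
      (by rw [map_neg, a4, neg_zero]) a3 (by rw [map_add, a4, hy2, zero_add])
    have eu : w + u + -w = u := by abel
    rw [eu] at Du
    have Duv : D N v (u + v) := Du.shift hB N hN v y2 (hB.alt v) hvu a3 a3 hy2
    have hU := iso3 hB u v w huv huw hvw
    have mu : u ∈ span F {u, v, w} := subset_span (by simp)
    have mv : v ∈ span F {u, v, w} := subset_span (by simp)
    have mw : w ∈ span F {u, v, w} := subset_span (by simp)
    have muv := (span F {u, v, w}).add_mem mu mv
    have mwv := (span F {u, v, w}).add_mem mw mv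
    have mwu := (span F {u, v, w}).add_mem mw mu
    have mwuv := (span F {u, v, w}).add_mem mwu mv
    have fs : ∀ (x : V) (a : F), x ∈ span F {u, v, w} →
        FU (span F {u, v, w}) (a • (sq B x - sq B v)) := fun x a hx => by
      have h3 := ((FU.sq hU hx).add ((FU.sq hU mv).smul (-1))).smul a
      rwa [neg_one_smul, ← sub_eq_add_neg] at h3
    have f1 := fs _ b muv
    have f2 := f1.add (fs _ (-b) mu)
    have f3 := f2.add (fs _ b mwv)
    have f4 := f3.add (fs _ (-b) mw)
    have f5 := f4.add (fs _ (-b) mwuv)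
    have k2 := K.add N f1 (fs _ (-b) mu) (Duv b) (Du (-b))
    have k3 := K.add N f2 (fs _ b mwv) k2 (Dwv b)
    have k4 := K.add N f3 (fs _ (-b) mw) k3 (hD (-b))
    have k5 := K.add N f4 (fs _ (-b) mwuv) k4 (Dwuv (-b))
    have k6 := K.add N f5 (fs _ b mwu) k5 (Dwu b)
    have e : b • (sq B (u + v) - sq B v) + -b • (sq B u - sq B v) +
        b • (sq B (w + v) - sq B v) + -b • (sq B w - sq B v) +
        -b • (sq B (w + u + v) - sq B v) + b • (sq B (w + u) - sq B v) = b • sq B v := by
      ext z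
      simp only [LinearMap.add_apply, LinearMap.smul_apply, LinearMap.sub_apply, sq_apply,
        map_add]
      module
    rwa [e] at k6

include hB in
omit [FiniteDimensional F V] in
/-- an isometry for which all vectors are eigenvectors is `±1` -/
lemma scalar (s : SpV B) (h : ∀ v, s.1 v ∈ span F {v}) :
    (∀ x, s.1 x = x) ∨ ∀ x, s.1 x = -x := by
  classical
  have h' : ∀ v : V, ∃ a : F, s.1 v = a • v := fun v => by
    obtain ⟨a, ha⟩ := mem_span_singleton.1 (h v)
    exact ⟨a, ha.symm⟩
  choose l hl using h'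
  by_cases hV : ∃ v : V, v ≠ 0
  · obtain ⟨v, hv⟩ := hV
    have h1 : ∀ x, x ∉ span F {v} → l x = l v := by
      intro x hx
      have h2 := hl (x + v)
      rw [map_add, hl x, hl v] at h2
      have h3 : (l x - l (x + v)) • x + (l v - l (x + v)) • v = 0 := by
        linear_combination (norm := module) h2
      have ha : l x - l (x + v) = 0 := by
        by_contra ha
        apply hx
        rw [mem_span_singleton]
        refine ⟨-((l x - l (x + v))⁻¹ * (l v - l (x + v))), ?_⟩
        have e1 : x = (l x - l (x + v))⁻¹ • ((l x - l (x + v)) • x) := by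
          rw [smul_smul, inv_mul_cancel₀ ha, one_smul]
        have e2 : (l x - l (x + v)) • x = -((l v - l (x + v)) • v) := by
          linear_combination (norm := module) h3
        conv_rhs => rw [e1, e2]
        module
      rw [ha, zero_smul, zero_add] at h3
      have hb := (smul_eq_zero.1 h3).resolve_right hv
      linear_combination ha - hb
    have h2 : ∀ x, s.1 x = l v • x := by
      intro x
      by_cases hx : x ∈ span F {v}
      · obtain ⟨a, rfl⟩ := mem_span_singleton.1 hx
        rw [map_smul, hl v, smul_comm]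
      · rw [hl x, h1 x hx]
    obtain ⟨y, hy⟩ : ∃ y, B v y ≠ 0 := by
      by_contra hcon
      push Not at hcon
      exact hv (hB.nondeg v hcon)
    have h3 : B (s.1 v) (s.1 y) = B v y := s.2 v y
    rw [h2, h2, map_smul, map_smul, LinearMap.smul_apply, smul_eq_mul, smul_eq_mul] at h3
    have h4 : (l v - 1) * (l v + 1) = 0 := by
      apply mul_right_cancel₀ hy
      linear_combination h3
    rcases mul_eq_zero.1 h4 with h5 | h5
    · left
      intro x
      rw [h2, sub_eq_zero.1 h5, one_smul]
    · right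
      intro x
      rw [h2, eq_neg_of_add_eq_zero_left h5, neg_one_smul]
  · push Not at hV
    left
    intro x
    rw [hV x, map_zero]

include hB in
/-- transitivity on nonzero vectors, in the form needed -/
lemma trans (P : V → Prop) (hP : ∀ (g : SpV B) (x : V), P x → P (g.1 x)) (v : V) (hv : v ≠ 0)
    (hPv : P v) : ∀ x : V, x ≠ 0 → P x := by
  have step : ∀ x y : V, P x → B x y ≠ 0 → P y := by
    intro x y hx hxy
    have h1 := hP (tv hB (y - x) (B y x)⁻¹) x hx
    have hyx : B y x ≠ 0 := by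
      rw [skew hB]
      exact neg_ne_zero.2 hxy
    rw [tv_apply, map_sub, LinearMap.sub_apply, hB.alt, sub_zero, smul_smul, inv_mul_cancel₀ hyx,
      one_smul, add_sub_cancel] at h1
    exact h1
  have nd : ∀ x : V, x ≠ 0 → ∃ y, B x y ≠ 0 := by
    intro x hx
    by_contra hcon
    push Not at hcon
    exact hx (hB.nondeg x hcon)
  intro x hx
  suffices h : ∃ z, B v z ≠ 0 ∧ B z x ≠ 0 by
    obtain ⟨z, h1, h2⟩ := h
    exact step z x (step v z hPv h1) h2
  obtain ⟨y1, hy1⟩ := nd v hv
  obtain ⟨y2, hy2⟩ := nd x hx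
  by_cases h1 : B x y1 = 0
  · by_cases h2 : B v y2 = 0
    · refine ⟨y1 + y2, ?_, ?_⟩
      · rw [map_add, h2, add_zero]
        exact hy1
      · rw [skew hB, map_add, h1, zero_add]
        exact neg_ne_zero.2 hy2
    · refine ⟨y2, h2, ?_⟩
      rw [skew hB]
      exact neg_ne_zero.2 hy2
  · refine ⟨y1, hy1, ?_⟩
    rw [skew hB]
    exact neg_ne_zero.2 h1

include hB in
/-- a pair of orthogonal vectors -/
lemma pair (hN : N.Normal) (hn : 4 ≤ Module.finrank F V) (s : SpV B) (hs : s ∈ N) (v : V)
    (hv : s.1 v ∉ span F {v}) : ∃ x y : V, x ≠ 0 ∧ B x y = 0 ∧ y ∉ span F {x} ∧ D N x y := by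
  have hv0 : v ≠ 0 := by
    rintro rfl
    rw [map_zero] at hv
    exact hv (zero_mem _)
  -- `[s, t_v]`
  have hcomm : ∀ a : F, ∃ n ∈ N, ∀ z, n.1 (z + a • (B v z • v)) = z + a • (B (s.1 v) z • s.1 v) := by
    intro a
    refine ⟨s * (tv hB v a * s⁻¹ * (tv hB v a)⁻¹), N.mul_mem hs (hN.conj_mem _ (N.inv_mem hs) _),
      fun z => ?_⟩
    have e : (s * (tv hB v a * s⁻¹ * (tv hB v a)⁻¹)).1 (z + a • (B v z • v)) =
        s.1 ((tv hB v a).1 (s⁻¹.1 ((tv hB v a)⁻¹.1 ((tv hB v a).1 z)))) := rfl
    have e2 : (tv hB v a)⁻¹.1 ((tv hB v a).1 z) = z := (tv hB v a).1.symm_apply_apply z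
    rw [e, e2, tv_apply, map_add, inv_apply', map_smul, map_smul, iso_inv]
  set w : V := s.1 v with hw
  by_cases hvw : B v w = 0
  · refine ⟨v, w, hv0, hvw, hv, fun a => ?_⟩
    obtain ⟨n, hn1, hn2⟩ := hcomm a
    refine ⟨n, hn1, fun z => ?_⟩
    have h1 := hn2 (z - a • (B v z • v))
    rw [map_sub, map_smul, map_smul, hB.alt, smul_zero, smul_zero, sub_zero,
      sub_add_cancel] at h1
    have hwv : B w v = 0 := by rw [skew hB, hvw, neg_zero]
    rw [h1, map_sub, map_smul, map_smul, hwv, smul_zero, smul_zero, sub_zero]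
    simp only [LinearMap.smul_apply, LinearMap.sub_apply, sq_apply]
    module
  · obtain ⟨r, hr0, hvr, hwr⟩ := ex_r (B := B) v w hn
    have hrw : B r w = 0 := by rw [skew hB, hwr, neg_zero]
    have hrv : B r v = 0 := by rw [skew hB, hvr, neg_zero]
    have hvy : B v ((B v w)⁻¹ • r) = 0 := by rw [map_smul, hvr, smul_zero]
    set g := sg hB v ((B v w)⁻¹ • r) hvy with hg
    have g1 : g.1 v = v := by
      rw [hg, sg_apply, hB.alt, zero_smul, zero_add, map_smul, LinearMap.smul_apply, hrv,
        smul_zero, zero_smul, add_zero]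
    have g2 : g.1 w = w + r := by
      rw [hg, sg_apply, smul_smul, mul_inv_cancel₀ hvw, one_smul, map_smul, LinearMap.smul_apply,
        hrw, smul_zero, zero_smul, add_zero]
    have hw0 : w ≠ 0 := by
      intro h
      rw [h] at hv
      exact hv (zero_mem _)
    refine ⟨w, w + r, hw0, by rw [map_add, hB.alt, hwr, add_zero], ?_, fun a => ?_⟩
    · intro h
      obtain ⟨c, hc⟩ := mem_span_singleton.1 h
      have h1 : r = (c - 1) • w := by
        rw [sub_smul, hc, one_smul, add_sub_cancel_left]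
      have h2 := hvr
      rw [h1, map_smul, smul_eq_mul] at h2
      have h3 := (mul_eq_zero.1 h2).resolve_right hvw
      rw [h3, zero_smul] at h1
      exact hr0 h1
    · obtain ⟨n, hn1, hn2⟩ := hcomm a
      refine ⟨g * n * g⁻¹ * n⁻¹, N.mul_mem (hN.conj_mem n hn1 g) (N.inv_mem hn1), fun z => ?_⟩
      -- `n⁻¹ (z) = x + a B(v,x) v` where `x = z - a B(w,z) w`
      set x : V := z - a • (B w z • w) with hx
      have e1 : x + a • (B w x • w) = z := by
        rw [hx, map_sub, map_smul, map_smul, hB.alt, smul_zero, smul_zero, sub_zero,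
          sub_add_cancel]
      have e2 : n⁻¹.1 z = x + a • (B v x • v) := by
        have h1 := hn2 x
        rw [e1] at h1
        rw [← h1]
        exact n.1.symm_apply_apply _
      have e3 : (g * n * g⁻¹ * n⁻¹).1 z = g.1 (n.1 (g⁻¹.1 (n⁻¹.1 z))) := rfl
      have g1' : g⁻¹.1 v = v := by
        conv_lhs => rw [← g1]
        exact g.1.symm_apply_apply v
      have e4 : g⁻¹.1 (x + a • (B v x • v)) =
          g⁻¹.1 x + a • (B v (g⁻¹.1 x) • v) := by
        rw [map_add, map_smul, map_smul, g1', iso_inv, g1]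
      rw [e3, e2, e4, hn2, map_add, map_smul, map_smul, inv_apply', iso_inv, g2]
      have hrw' : B (w + r) w = 0 := by
        rw [map_add, LinearMap.add_apply, hB.alt, hrw, add_zero]
      rw [hx, map_sub, map_smul, map_smul, hrw', smul_zero, smul_zero, sub_zero]
      simp only [LinearMap.smul_apply, LinearMap.sub_apply, sq_apply]
      module

end

theorem simple_holds : TaskSGEN → TaskSSIMPLE := by
  intro hgen F V _ _ _ _ _ B hB hdim N hN
  by_cases hall : ∀ s ∈ N, (∀ x, s.1 x = x) ∨ ∀ x, s.1 x = -x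
  · exact Or.inl hall
  right
  push Not at hall
  obtain ⟨s, hs, h1, h2⟩ := hall
  obtain ⟨v, hv⟩ : ∃ v, s.1 v ∉ span F {v} := by
    by_contra hcon
    push Not at hcon
    rcases scalar hB s hcon with h3 | h3
    · obtain ⟨x, hx⟩ := h1
      exact hx (h3 x)
    · obtain ⟨x, hx⟩ := h2
      exact hx (h3 x)
  have hn4 : 4 ≤ Module.finrank F V := by
    rcases hdim with h | h
    · exact h.2
    · omega
  obtain ⟨x, y, hxz, hxy, hyx, hD⟩ := pair hB N hN hn4 s hs v hv
  have hx0 : ∀ b : F, K N (b • sq B x) := main_rel hB N hN hdim x y hxy hyx hD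
  have hall : ∀ z : V, z ≠ 0 → ∀ b : F, K N (b • sq B z) := by
    refine trans hB (fun z => ∀ b : F, K N (b • sq B z)) (fun g z hz b => ?_) x hxz hx0
    obtain ⟨n, hn1, hn2⟩ := hz b
    refine ⟨g * n * g⁻¹, hN.conj_mem n hn1 g, fun t => ?_⟩
    have e : (g * n * g⁻¹).1 t = g.1 (n.1 (g⁻¹.1 t)) := rfl
    rw [e, hn2, map_add, inv_apply']
    simp only [LinearMap.smul_apply, sq_apply, map_smul, iso_inv]
  rw [eq_top_iff, ← hgen F V B hB, Subgroup.closure_le]
  rintro t ⟨v, a, ht⟩
  by_cases hv0 : v = 0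
  · have : t = 1 := by
      apply Subtype.ext
      apply LinearEquiv.ext
      intro z
      rw [ht z, hv0, smul_zero, add_zero]
      rfl
    rw [this]
    exact N.one_mem
  · obtain ⟨n, hn1, hn2⟩ := hall v hv0 a
    have : t = n := by
      apply Subtype.ext
      apply LinearEquiv.ext
      intro z
      rw [ht z, hn2 z, LinearMap.smul_apply, sq_apply, smul_smul]
    rw [this]
    exact hn1

end Pool.Agent.Y676.DSP
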